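import Mathlib

set_option autoImplicit false

/-!
# One-player percolation games: definitions
-/

open MeasureTheory

namespace Q287.KI

/-- A one-player percolation game on `ℤ^d` with action set `I`, over the probability space
`(Ω, P)`: displacements `q`, shifts `τ` preserving `P`, and stationary bounded payoffs `g`.
(Ergodicity of the shifts is not assumed; i.i.d. payoffs are a special case.) -/
structure Game (d : ℕ) (I : Type*) {Ω : Type*} [MeasurableSpace Ω] (P : Measure Ω) where
  q : I → (Fin d → ℤ)
  τ : (Fin d → ℤ) → Ω → Ω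
  g : Ω → (Fin d → ℤ) → I → ℝ
  measurePreserving_τ : ∀ z, MeasurePreserving (τ z) P P
  τ_add : ∀ z z', τ (z + z') = τ z ∘ τ z'
  measurable_g : ∀ z i, Measurable (fun ω => g ω z i)
  bounded : ∃ C, ∀ ω z i, |g ω z i| ≤ C
  stationary : ∀ z z' i ω, g (τ z ω) z' i = g ω (z + z') i

/-- The total payoff collected from the state `z` along a finite sequence of actions. -/
def total {d : ℕ} {I : Type*} (g : (Fin d → ℤ) → I → ℝ) (q : I → (Fin d → ℤ)) :
    (Fin d → ℤ) → List I → ℝ
  | _, [] => 0
  | z, i :: l => g z i + total g q (z + q i) l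

/-- The value of the `n`-stage game if the player maximizes: the largest average payoff over all
action sequences of length `n`. -/
noncomputable def maxValue {d : ℕ} {I Ω : Type*} [MeasurableSpace Ω] {P : Measure Ω}
    (Γ : Game d I P) (ω : Ω) (z : Fin d → ℤ) (n : ℕ) : ℝ :=
  ⨆ l : {l : List I // l.length = n}, total (Γ.g ω) Γ.q z l.1 / n

/-- The value of the `n`-stage game if the player minimizes. -/
noncomputable def minValue {d : ℕ} {I Ω : Type*} [MeasurableSpace Ω] {P : Measure Ω}
    (Γ : Game d I P) (ω : Ω) (z : Fin d → ℤ) (n : ℕ) : ℝ :=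
  ⨅ l : {l : List I // l.length = n}, total (Γ.g ω) Γ.q z l.1 / n

end Q287.KI
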