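import Mathlib

set_option autoImplicit false

/-!
# A superadditive ergodic theorem for bounded processes (Kingman, after Steele)
-/

open Finset MeasureTheory Filter Topology
open scoped ENNReal

namespace Q287.KI

/-- The greedy covering argument. -/
theorem greedy {x : ℕ → ℕ → ℝ} (hsup : ∀ j k n, x j k + x (j + k) n ≤ x j (k + n))
    (bad : ℕ → Prop) (χ : ℕ → ℝ) (hχ : ∀ j, 0 ≤ χ j) (hχ1 : ∀ j, bad j → χ j = 1)
    {α β γ : ℝ} (hβ : 0 ≤ β) {M : ℕ}
    (h1 : ∀ j n, n ≤ M → α * n - γ ≤ x j n)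
    (h2 : ∀ j, bad j → α - β ≤ x j 1)
    (h3 : ∀ j, ¬ bad j → ∃ k, 1 ≤ k ∧ k ≤ M ∧ α * k ≤ x j k) (n : ℕ) :
    ∀ j, α * n - β * (∑ i ∈ range n, χ (j + i)) - γ ≤ x j n := by
  induction n using Nat.strong_induction_on with
  | _ n ih =>
    intro j
    have hpos : ∀ m j', (0 : ℝ) ≤ ∑ i ∈ range m, χ (j' + i) := fun m j' =>
      sum_nonneg fun i _ => hχ _
    rcases Nat.lt_or_ge M n with hn | hn
    · by_cases hb : bad j
      · have e1 := ih (n - 1) (by omega) (j + 1)
        have e2 := hsup j 1 (n - 1)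
        rw [show 1 + (n - 1) = n by omega] at e2
        have e3 := h2 j hb
        have e4 : ∑ i ∈ range n, χ (j + i) = (∑ i ∈ range (n - 1), χ (j + 1 + i)) + 1 := by
          obtain ⟨m, rfl⟩ : ∃ m, n = m + 1 := ⟨n - 1, by omega⟩
          rw [sum_range_succ', Nat.add_sub_cancel, add_zero, hχ1 j hb]
          congr 1
          refine sum_congr rfl fun i _ => ?_
          rw [show j + (i + 1) = j + 1 + i by omega]
        rw [e4]
        have e5 : ((n - 1 : ℕ) : ℝ) = n - 1 := by
          rw [Nat.cast_sub (by omega)]; simp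
        rw [e5] at e1
        linarith
      · obtain ⟨k, hk1, hk2, hk3⟩ := h3 j hb
        have e1 := ih (n - k) (by omega) (j + k)
        have e2 := hsup j k (n - k)
        rw [show k + (n - k) = n by omega] at e2
        have e4 : ∑ i ∈ range (n - k), χ (j + k + i) ≤ ∑ i ∈ range n, χ (j + i) := by
          have h5 : range n = range (k + (n - k)) := by rw [show k + (n - k) = n by omega]
          rw [h5, sum_range_add]
          have h6 := hpos k j
          have h7 : ∑ i ∈ range (n - k), χ (j + k + i) = ∑ i ∈ range (n - k), χ (j + (k + i)) :=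
            sum_congr rfl fun i _ => by rw [show j + k + i = j + (k + i) by omega]
          rw [h7]
          linarith
        have e5 : ((n - k : ℕ) : ℝ) = n - k := by rw [Nat.cast_sub (by omega)]
        rw [e5] at e1
        nlinarith
    · have e1 := h1 j n hn
      have e2 := mul_nonneg hβ (hpos n j)
      linarith

variable {Ω : Type*} [MeasurableSpace Ω] {P : Measure Ω} [IsProbabilityMeasure P]

/-- The number of visits. -/
noncomputable def vis (T : Ω → Ω) (B : Set Ω) (n : ℕ) (ω : Ω) : ℝ :=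
  ∑ i ∈ range n, B.indicator (fun _ => (1 : ℝ)) (T^[i] ω)

theorem measurable_vis {T : Ω → Ω} (hT : Measurable T) {B : Set Ω} (hB : MeasurableSet B) (n : ℕ) :
    Measurable (vis T B n) := by
  unfold vis
  exact Finset.measurable_sum _ fun i _ => (measurable_const.indicator hB).comp (hT.iterate i)

omit [MeasurableSpace Ω] in
theorem vis_nonneg (T : Ω → Ω) (B : Set Ω) (n : ℕ) (ω : Ω) : 0 ≤ vis T B n ω := by
  unfold vis
  exact sum_nonneg fun i _ => Set.indicator_nonneg (fun _ _ => zero_le_one) _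

omit [MeasurableSpace Ω] in
theorem vis_le (T : Ω → Ω) (B : Set Ω) (n : ℕ) (ω : Ω) : vis T B n ω ≤ n := by
  unfold vis
  have h : ∀ i ∈ range n, B.indicator (fun _ => (1 : ℝ)) (T^[i] ω) ≤ 1 := fun i _ => by
    by_cases hB : T^[i] ω ∈ B
    · rw [Set.indicator_of_mem hB]
    · rw [Set.indicator_of_notMem hB]; exact zero_le_one
  calc _ ≤ ∑ i ∈ range n, (1 : ℝ) := sum_le_sum h
    _ = n := by simp

theorem integrable_vis {T : Ω → Ω} (hT : Measurable T) {B : Set Ω} (hB : MeasurableSet B)
    (n : ℕ) : Integrable (vis T B n) P :=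
  Integrable.of_bound (measurable_vis hT hB n).aestronglyMeasurable n
    (Filter.Eventually.of_forall fun ω => by
      rw [Real.norm_eq_abs, abs_of_nonneg (vis_nonneg T B n ω)]; exact vis_le T B n ω)

theorem integral_vis {T : Ω → Ω} (hT : MeasurePreserving T P P) {B : Set Ω} (hB : MeasurableSet B)
    (n : ℕ) : ∫ ω, vis T B n ω ∂P = n * P.real B := by
  unfold vis
  have hm : Measurable (B.indicator (fun _ => (1 : ℝ))) := measurable_const.indicator hB
  rw [integral_finsetSum]
  · have h1 : ∀ i ∈ range n, ∫ ω, B.indicator (fun _ => (1 : ℝ)) (T^[i] ω) ∂P = P.real B := by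
      intro i _
      have h2 := integral_map (μ := P) (φ := T^[i]) (hT.iterate i).aemeasurable
        (f := B.indicator (fun _ => (1 : ℝ))) hm.aestronglyMeasurable
      rw [(hT.iterate i).map_eq] at h2
      rw [← h2, integral_indicator hB]
      simp
    rw [sum_congr rfl h1]
    simp
  · intro i _
    refine Integrable.of_bound (hm.comp (hT.iterate i).measurable).aestronglyMeasurable 1
      (Filter.Eventually.of_forall fun ω => ?_)
    by_cases hB' : T^[i] ω ∈ B
    · simp [Set.indicator_of_mem hB']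
    · simp [Set.indicator_of_notMem hB']

/-- The maximal inequality. -/
theorem maximal {T : Ω → Ω} (hT : MeasurePreserving T P P) {B : Set Ω} (hB : MeasurableSet B)
    {l : ℝ} (hl : 0 < l) :
    P {ω | ∃ n, 1 ≤ n ∧ l * n < vis T B n ω} ≤ ENNReal.ofReal (P.real B / l) := by
  classical
  set E : ℕ → Set Ω := fun N => {ω | ∃ n, 1 ≤ n ∧ n ≤ N ∧ l * n < vis T B n ω} with hE
  have hEm : ∀ N, MeasurableSet (E N) := by
    intro N
    have : E N = ⋃ n ∈ Set.Icc 1 N, {ω | l * n < vis T B n ω} := by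
      ext ω; simp only [hE, Set.mem_ofPred_eq, Set.mem_iUnion, Set.mem_Icc, exists_prop]
      exact ⟨fun ⟨n, h1, h2, h3⟩ => ⟨n, ⟨h1, h2⟩, h3⟩, fun ⟨n, ⟨h1, h2⟩, h3⟩ => ⟨n, h1, h2, h3⟩⟩
    rw [this]
    exact MeasurableSet.biUnion (Set.to_countable _) fun n _ =>
      measurableSet_lt measurable_const (measurable_vis hT.measurable hB n)
  have hEN : ∀ N, 1 ≤ N → P.real (E N) ≤ P.real B / l := by
    intro N hN
    -- pointwise inequality
    have hpt : ∀ L ω, l * vis T (E N) L ω - l * N ≤ vis T B L ω := by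
      intro L ω
      have hsplit : ∀ j k n, vis T B k (T^[j] ω) + vis T B n (T^[j + k] ω) = vis T B (k + n) (T^[j] ω) := by
        intro j k n
        unfold vis
        rw [sum_range_add]
        congr 1
        refine sum_congr rfl fun i _ => ?_
        rw [← Function.iterate_add_apply, ← Function.iterate_add_apply]
        rw [show i + (j + k) = k + i + j by omega]
      have hg := greedy (x := fun j n => vis T B n (T^[j] ω)) (fun j k n => (hsplit j k n).le)
        (fun j => T^[j] ω ∉ E N) (fun j => (E N)ᶜ.indicator (fun _ => (1 : ℝ)) (T^[j] ω))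
        (fun j => Set.indicator_nonneg (fun _ _ => zero_le_one) _)
        (fun j hj => Set.indicator_of_mem (show T^[j] ω ∈ (E N)ᶜ from hj) _)
        (α := l) (β := l) (γ := l * N) (M := N) hl.le
        (fun j n hn => by
          have h1 := vis_nonneg T B n (T^[j] ω)
          have h2 : (n : ℝ) ≤ N := by exact_mod_cast hn
          have h3 := mul_le_mul_of_nonneg_left h2 hl.le
          linarith)
        (fun j _ => by
          have h1 := vis_nonneg T B 1 (T^[j] ω)
          linarith)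
        (fun j hj => by
          have hj' : T^[j] ω ∈ E N := by by_contra h; exact hj h
          obtain ⟨k, h1, h2, h3⟩ := hj'
          exact ⟨k, h1, h2, h3.le⟩) L 0
      have e1 : (∑ i ∈ range L, (E N)ᶜ.indicator (fun _ => (1 : ℝ)) (T^[0 + i] ω)) =
          L - vis T (E N) L ω := by
        unfold vis
        rw [eq_sub_iff_add_eq, ← sum_add_distrib]
        calc _ = ∑ i ∈ range L, (1 : ℝ) := by
              refine sum_congr rfl fun i _ => ?_
              rw [zero_add]
              by_cases h : T^[i] ω ∈ E N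
              · rw [Set.indicator_of_notMem (show T^[i] ω ∉ (E N)ᶜ from not_not.2 h),
                  Set.indicator_of_mem h]; ring
              · rw [Set.indicator_of_mem (show T^[i] ω ∈ (E N)ᶜ from h),
                  Set.indicator_of_notMem h]; ring
          _ = L := by simp
      rw [e1] at hg
      have e2 : T^[0] ω = ω := rfl
      rw [e2] at hg
      linarith
    -- integrate
    have hint : ∀ L : ℕ, l * (L * P.real (E N)) - l * N ≤ L * P.real B := by
      intro L
      rw [← integral_vis hT hB L, ← integral_vis hT (hEm N) L, ← integral_const_mul]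
      have h1 : ∫ ω, l * vis T (E N) L ω ∂P - l * N = ∫ ω, (l * vis T (E N) L ω - l * N) ∂P := by
        rw [integral_sub ((integrable_vis hT.measurable (hEm N) L).const_mul _) (integrable_const _)]
        simp
      rw [h1]
      exact integral_mono (((integrable_vis hT.measurable (hEm N) L).const_mul _).sub
        (integrable_const _)) (integrable_vis hT.measurable hB L) (hpt L)
    rw [le_div_iff₀ hl]
    by_contra hcon
    push Not at hcon
    -- `L (l p - b) ≤ l N` for all `L`
    obtain ⟨L, hL⟩ := exists_nat_gt (l * N / (P.real (E N) * l - P.real B))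
    rw [div_lt_iff₀ (by linarith)] at hL
    have := hint L
    linarith
  have hmono : Monotone E := by
    intro a b hab ω hω
    obtain ⟨n, h1, h2, h3⟩ := hω
    exact ⟨n, h1, h2.trans hab, h3⟩
  have hU : {ω | ∃ n, 1 ≤ n ∧ l * n < vis T B n ω} = ⋃ N, E (N + 1) := by
    ext ω
    simp only [hE, Set.mem_ofPred_eq, Set.mem_iUnion]
    constructor
    · rintro ⟨n, h1, h2⟩; exact ⟨n, n, h1, by omega, h2⟩
    · rintro ⟨N, n, h1, _, h2⟩; exact ⟨n, h1, h2⟩
  have hmono' : Monotone (fun N => E (N + 1)) := fun a b h => hmono (Nat.succ_le_succ h)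
  rw [hU, hmono'.measure_iUnion]
  refine iSup_le fun N => ?_
  have h1 := hEN (N + 1) (by omega)
  rw [Measure.real] at h1
  exact (ENNReal.le_ofReal_iff_toReal_le (measure_ne_top _ _)
    (div_nonneg measureReal_nonneg hl.le)).2 h1

/-! ### The superadditive ergodic theorem -/

/-- A real sequence bounded between `-C` and `C`. -/
theorem bddU {u : ℕ → ℝ} {C : ℝ} (h : ∀ n, |u n| ≤ C) :
    IsBoundedUnder (· ≤ ·) atTop u ∧ IsBoundedUnder (· ≥ ·) atTop u :=
  ⟨⟨C, eventually_map.2 (Eventually.of_forall fun n => (abs_le.1 (h n)).2)⟩,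
    ⟨-C, eventually_map.2 (Eventually.of_forall fun n => (abs_le.1 (h n)).1)⟩⟩

theorem superadditive {T : Ω → Ω} (hT : MeasurePreserving T P P) {X : ℕ → Ω → ℝ}
    (hX : ∀ n, Measurable (X n)) {C : ℝ} (hC : 0 ≤ C) (hb : ∀ n ω, |X n ω| ≤ C * n)
    (hs : ∀ k n ω, X k ω + X n (T^[k] ω) ≤ X (k + n) ω) :
    ∀ᵐ ω ∂P, ∃ a, Tendsto (fun n : ℕ => X n ω / n) atTop (𝓝 a) := by
  classical
  have hu : ∀ ω n, |X n ω / (n : ℝ)| ≤ C := by
    intro ω n
    rcases Nat.eq_zero_or_pos n with hn | hn
    · subst hn; simpa using hC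
    · have hn0 : (0 : ℝ) < n := by exact_mod_cast hn
      rw [abs_div, abs_of_pos hn0, div_le_iff₀ hn0]
      exact hb n ω
  set U : Ω → ℝ := fun ω => limsup (fun n : ℕ => X n ω / n) atTop with hU
  have hUm : Measurable U := Measurable.limsup fun n => (hX n).div_const _
  have hUle : ∀ ω, U ω ≤ C := fun ω =>
    limsup_le_of_le ((bddU (hu ω)).2.isCoboundedUnder_le) (Eventually.of_forall fun n => (abs_le.1 (hu ω n)).2)
  have hUge : ∀ ω, -C ≤ U ω := fun ω =>
    le_limsup_of_le ((bddU (hu ω)).1) fun b hb' => by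
      obtain ⟨n, hn⟩ := hb'.exists
      exact (abs_le.1 (hu ω n)).1.trans hn
  -- `U ∘ T ≤ U`
  have hUT : ∀ ω, U (T ω) ≤ U ω := by
    intro ω
    refine le_of_forall_pos_le_add fun ε hε => ?_
    have h1 : ∀ᶠ n in atTop, X n ω / (n : ℝ) < U ω + ε / 2 :=
      eventually_lt_of_limsup_lt (by show U ω < _; linarith) (bddU (hu ω)).1
    refine limsup_le_of_le ((bddU (hu (T ω))).2.isCoboundedUnder_le) ?_
    obtain ⟨N, hN⟩ := eventually_atTop.1 h1
    obtain ⟨N2, hN2⟩ := exists_nat_gt ((2 * C + ε) / (ε / 2))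
    filter_upwards [eventually_ge_atTop (max (max N 1) N2)] with n hn
    have hn1 : N ≤ n := (le_max_left _ _).trans ((le_max_left _ _).trans hn)
    have hn2 : 1 ≤ n := (le_max_right _ _).trans ((le_max_left _ _).trans hn)
    have hn3 : (N2 : ℝ) ≤ n := by exact_mod_cast (le_max_right _ _).trans hn
    have hn0 : (0 : ℝ) < n := by exact_mod_cast hn2
    have e1 := hs 1 n ω
    have e2 := hN (1 + n) (by omega)
    have e3 := hb 1 ω
    push_cast at e2 e3
    rw [mul_one] at e3
    have e4 : T^[1] ω = T ω := rfl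
    rw [e4] at e1
    rw [div_lt_iff₀ (by linarith)] at e2
    rw [div_le_iff₀ hn0]
    rw [div_lt_iff₀ (by linarith)] at hN2
    have e5 := abs_le.1 e3
    have e6 := hUle ω
    nlinarith
  -- `U ∘ T = U` a.e.
  have hUint : Integrable U P := Integrable.of_bound hUm.aestronglyMeasurable C
    (Eventually.of_forall fun ω => by rw [Real.norm_eq_abs, abs_le]; exact ⟨hUge ω, hUle ω⟩)
  have hUinv : ∀ᵐ ω ∂P, U (T ω) = U ω := by
    have h1 : ∫ ω, U (T ω) ∂P = ∫ ω, U ω ∂P := by
      have h2 := integral_map (μ := P) (φ := T) hT.aemeasurable (f := U) hUm.aestronglyMeasurable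
      rw [hT.map_eq] at h2
      exact h2.symm
    have hint2 : Integrable (fun ω => U (T ω)) P := hT.integrable_comp_of_integrable hUint
    have h3 : ∫ ω, (U ω - U (T ω)) ∂P = 0 := by rw [integral_sub hUint hint2, h1, sub_self]
    rw [integral_eq_zero_iff_of_nonneg (fun ω => sub_nonneg.2 (hUT ω)) (hUint.sub hint2)] at h3
    filter_upwards [h3] with ω hω
    have : U ω - U (T ω) = 0 := hω
    linarith
  have hUinvAll : ∀ᵐ ω ∂P, ∀ j, U (T^[j] ω) = U ω := by
    have h1 : ∀ j, ∀ᵐ ω ∂P, U (T (T^[j] ω)) = U (T^[j] ω) := fun j =>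
      (hT.iterate j).quasiMeasurePreserving.ae hUinv
    filter_upwards [ae_all_iff.2 h1] with ω hω j
    induction j with
    | zero => rfl
    | succ j ih => rw [Function.iterate_succ_apply', hω j, ih]
  -- the bad sets
  set B : ℕ → ℕ → Set Ω := fun r M => {ω | ∀ n, 1 ≤ n → n ≤ M → X n ω < (U ω - 1 / ((r : ℝ) + 1)) * n} with hB
  have hBm : ∀ r M, MeasurableSet (B r M) := by
    intro r M
    have : B r M = ⋂ n ∈ Set.Icc 1 M, {ω | X n ω < (U ω - 1 / ((r : ℝ) + 1)) * n} := by
      ext ω; simp only [hB, Set.mem_ofPred_eq, Set.mem_iInter, Set.mem_Icc, and_imp]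
    rw [this]
    exact MeasurableSet.biInter (Set.to_countable _) fun n _ =>
      measurableSet_lt (hX n) ((hUm.sub_const _).mul_const _)
  have hBanti : ∀ r, Antitone (B r) := by
    intro r a b hab ω hω n h1 h2
    exact hω n h1 (h2.trans hab)
  have hBempty : ∀ r, ⋂ M, B r M = ∅ := by
    intro r
    rw [Set.eq_empty_iff_forall_notMem]
    intro ω hω
    rw [Set.mem_iInter] at hω
    have h1 : ∃ᶠ n : ℕ in atTop, U ω - 1 / ((r : ℝ) + 1) < X n ω / n :=
      frequently_lt_of_lt_limsup ((bddU (hu ω)).2.isCoboundedUnder_le)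
        (by show _ < U ω; have : 0 < 1 / ((r : ℝ) + 1) := by positivity
            linarith)
    obtain ⟨n, hn1, hn2⟩ := (h1.and_eventually (eventually_ge_atTop 1)).exists
    have hn0 : (0 : ℝ) < n := by exact_mod_cast hn2
    rw [lt_div_iff₀ hn0] at hn1
    exact absurd (hω n n hn2 le_rfl) (not_lt.2 hn1.le)
  have hBto : ∀ r, Tendsto (fun M => P.real (B r M)) atTop (𝓝 0) := by
    intro r
    have h1 := tendsto_measure_iInter_atTop (μ := P) (s := B r)
      (fun M => (hBm r M).nullMeasurableSet) (hBanti r) ⟨0, measure_ne_top _ _⟩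
    rw [hBempty r, measure_empty] at h1
    exact (ENNReal.tendsto_toReal ENNReal.zero_ne_top).comp h1
  -- for all rational levels some bad set is visited rarely
  have hrare : ∀ r s : ℕ, ∀ᵐ ω ∂P, ∃ M, 1 ≤ M ∧ ∀ n, 1 ≤ n →
      vis T (B r M) n ω ≤ 1 / ((s : ℝ) + 1) * n := by
    intro r s
    have hl : (0 : ℝ) < 1 / ((s : ℝ) + 1) := by positivity
    rw [ae_iff]
    refine le_antisymm ?_ bot_le
    have h1 : ∀ M, 1 ≤ M → P {ω | ¬ ∃ M, 1 ≤ M ∧ ∀ n, 1 ≤ n → vis T (B r M) n ω ≤ 1 / ((s : ℝ) + 1) * n} ≤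
        ENNReal.ofReal (P.real (B r M) / (1 / ((s : ℝ) + 1))) := by
      intro M hM
      refine le_trans (measure_mono ?_) (maximal hT (hBm r M) hl)
      intro ω hω
      have hω' : ¬ ∃ M, 1 ≤ M ∧ ∀ n, 1 ≤ n → vis T (B r M) n ω ≤ 1 / ((s : ℝ) + 1) * n := hω
      push Not at hω'
      obtain ⟨n, hn1, hn2⟩ := hω' M hM
      exact ⟨n, hn1, hn2⟩
    have h2 : Tendsto (fun M => ENNReal.ofReal (P.real (B r M) / (1 / ((s : ℝ) + 1)))) atTop (𝓝 0) := by
      have := ENNReal.tendsto_ofReal ((hBto r).div_const (1 / ((s : ℝ) + 1)))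
      simpa using this
    exact ge_of_tendsto h2 ((eventually_ge_atTop 1).mono h1)
  have hrareAll := ae_all_iff.2 fun r => ae_all_iff.2 (hrare r)
  filter_upwards [hUinvAll, hrareAll] with ω hinv hω
  refine ⟨U ω, ?_⟩
  rw [Metric.tendsto_atTop]
  intro ε hε
  -- upper part
  have hup : ∀ᶠ n in atTop, X n ω / (n : ℝ) < U ω + ε :=
    eventually_lt_of_limsup_lt (by show U ω < _; linarith) (bddU (hu ω)).1
  -- lower part
  obtain ⟨r, hr⟩ := exists_nat_one_div_lt (show (0 : ℝ) < ε / 3 by positivity)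
  obtain ⟨s, hs'⟩ := exists_nat_one_div_lt (show (0 : ℝ) < ε / (3 * (2 * C + 1)) by positivity)
  obtain ⟨M, hM, hvis⟩ := hω r s
  have hg := greedy (x := fun j n => X n (T^[j] ω))
    (fun j k n => by
      have := hs k n (T^[j] ω)
      rw [← Function.iterate_add_apply, add_comm k j] at this
      exact this)
    (fun j => T^[j] ω ∈ B r M) (fun j => (B r M).indicator (fun _ => (1 : ℝ)) (T^[j] ω))
    (fun j => Set.indicator_nonneg (fun _ _ => zero_le_one) _)
    (fun j hj => Set.indicator_of_mem hj _)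
    (α := U ω - 1 / ((r : ℝ) + 1)) (β := 2 * C) (γ := 2 * C * M) (M := M)
    (by positivity)
    (fun j n hn => by
      have h1 := (abs_le.1 (hb n (T^[j] ω))).1
      have h2 : (n : ℝ) ≤ M := by exact_mod_cast hn
      have h3 := hUle ω
      have h4 : (0 : ℝ) < 1 / ((r : ℝ) + 1) := by positivity
      have h5 : (U ω - 1 / ((r : ℝ) + 1)) * n ≤ C * n :=
        mul_le_mul_of_nonneg_right (by linarith) (Nat.cast_nonneg n)
      have h6 : C * n ≤ C * M := mul_le_mul_of_nonneg_left h2 hC
      linarith)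
    (fun j _ => by
      have h1 := (abs_le.1 (hb 1 (T^[j] ω))).1
      have h3 := hUle ω
      have h4 : (0 : ℝ) < 1 / ((r : ℝ) + 1) := by positivity
      push_cast at h1
      linarith)
    (fun j hj => by
      have hj' : ¬ ∀ n, 1 ≤ n → n ≤ M → X n (T^[j] ω) < (U (T^[j] ω) - 1 / ((r : ℝ) + 1)) * n := hj
      push Not at hj'
      obtain ⟨k, h1, h2, h3⟩ := hj'
      rw [hinv j] at h3
      exact ⟨k, h1, h2, h3⟩)
  obtain ⟨N2, hN2⟩ := exists_nat_gt ((2 * C * M) / (ε / 3))
  obtain ⟨N1, hN1⟩ := eventually_atTop.1 hup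
  refine ⟨max (max N1 1) N2, fun n hn => ?_⟩
  have hn1 : N1 ≤ n := (le_max_left _ _).trans ((le_max_left _ _).trans hn)
  have hn2 : 1 ≤ n := (le_max_right _ _).trans ((le_max_left _ _).trans hn)
  have hn3 : (N2 : ℝ) ≤ n := by exact_mod_cast (le_max_right _ _).trans hn
  have hn0 : (0 : ℝ) < n := by exact_mod_cast hn2
  have e1 := hg n 0
  have e2 : (∑ i ∈ range n, (B r M).indicator (fun _ => (1 : ℝ)) (T^[0 + i] ω)) = vis T (B r M) n ω := by
    unfold vis
    refine sum_congr rfl fun i _ => ?_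
    rw [zero_add]
  rw [e2] at e1
  have e3 : T^[0] ω = ω := rfl
  rw [e3] at e1
  have e4 := hvis n hn2
  rw [div_lt_iff₀ (by positivity)] at hN2
  have e5 : 2 * C * vis T (B r M) n ω ≤ ε / 3 * n := by
    have h1 : 2 * C * vis T (B r M) n ω ≤ 2 * C * (1 / ((s : ℝ) + 1) * n) :=
      mul_le_mul_of_nonneg_left e4 (by positivity)
    have h2 : 2 * C * (1 / ((s : ℝ) + 1)) ≤ ε / 3 := by
      have h3 : 1 / ((s : ℝ) + 1) * (3 * (2 * C + 1)) < ε := by
        rwa [lt_div_iff₀ (by positivity)] at hs'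
      have h4 : (0 : ℝ) < 1 / ((s : ℝ) + 1) := by positivity
      nlinarith
    have h3 := mul_le_mul_of_nonneg_right h2 hn0.le
    linarith
  have e6 : 2 * C * M ≤ ε / 3 * n := by nlinarith
  have e7 : 1 / ((r : ℝ) + 1) * n ≤ ε / 3 * n := mul_le_mul_of_nonneg_right hr.le hn0.le
  rw [Real.dist_eq, abs_lt]
  constructor
  · have h1 : (U ω - ε) * n ≤ X n ω := by nlinarith
    have h2 : U ω - ε ≤ X n ω / n := by rw [le_div_iff₀ hn0]; exact h1
    rcases h2.eq_or_lt with h3 | h3
    · -- strictness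
      have h4 : (U ω - 1 / ((r : ℝ) + 1)) * n - 2 * C * vis T (B r M) n ω - 2 * C * M ≤ X n ω := e1
      have h5 : 1 / ((r : ℝ) + 1) * n < ε / 3 * n := mul_lt_mul_of_pos_right hr hn0
      have h6 : (U ω - ε) * n < X n ω := by nlinarith
      have h7 : U ω - ε < X n ω / n := by rw [lt_div_iff₀ hn0]; exact h6
      linarith
    · linarith
  · linarith [hN1 n hn1]

end Q287.KI
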