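import Pool.Agent.Q287.KI.Path
import Pool.Agent.Q287.KI.Super

set_option autoImplicit false

/-!
# One-player percolation games have a limit value
-/

open Finset MeasureTheory Filter Topology

namespace Q287.KI

variable {d : ℕ} {I : Type*} {Ω : Type*} [MeasurableSpace Ω] {P : Measure Ω}

/-- Iterates of a shift, seen through the payoffs. -/
theorem g_iterate (Γ : Game d I P) (y : Fin d → ℤ) (k : ℕ) (ω : Ω) (z : Fin d → ℤ) (i : I) :
    Γ.g ((Γ.τ y)^[k] ω) z i = Γ.g ω (k • y + z) i := by
  induction k generalizing z with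
  | zero => simp
  | succ k ih =>
    rw [Function.iterate_succ_apply', Γ.stationary, ih]
    congr 1
    rw [succ_nsmul]
    abel

theorem total_shift {g g' : (Fin d → ℤ) → I → ℝ} {q : I → (Fin d → ℤ)} {y : Fin d → ℤ}
    (h : ∀ z i, g' z i = g (y + z) i) (z : Fin d → ℤ) (l : List I) :
    total g' q z l = total g q (y + z) l := by
  induction l generalizing z with
  | nil => rfl
  | cons i l ih => rw [total, total, h, ih, add_assoc]

variable [Fintype I] [DecidableEq I]

omit [DecidableEq I] in
theorem disp_smul (q : I → (Fin d → ℤ)) (k : ℕ) (b : I → ℕ) : disp q (k • b) = k • disp q b := by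
  unfold disp
  rw [Finset.smul_sum]
  refine sum_congr rfl fun i _ => ?_
  rw [Pi.smul_apply, smul_eq_mul, mul_smul]

omit [DecidableEq I] in
theorem sz_smul (k : ℕ) (b : I → ℕ) : sz (k • b) = k * sz b := by
  unfold sz
  rw [Finset.mul_sum]
  rfl

omit [Fintype I] [DecidableEq I] in
theorem measurable_total (Γ : Game d I P) (z : Fin d → ℤ) (l : List I) :
    Measurable (fun ω => total (Γ.g ω) Γ.q z l) := by
  induction l generalizing z with
  | nil => exact measurable_const
  | cons i l ih => exact (Γ.measurable_g z i).add (ih _)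

/-- The limit for action counts proportional to `b`. -/
theorem exists_limit [IsProbabilityMeasure P] (Γ : Game d I P) (z : Fin d → ℤ) (b : I → ℕ) :
    ∀ᵐ ω ∂P, ∃ a, Tendsto (fun k : ℕ => best (Γ.g ω) Γ.q z (k • b) / k) atTop (𝓝 a) := by
  obtain ⟨C, hC⟩ := Γ.bounded
  set C' := max C 0 with hC'
  have hC2 : ∀ ω z i, |Γ.g ω z i| ≤ C' := fun ω z i => (hC ω z i).trans (le_max_left _ _)
  have hC0 : 0 ≤ C' := le_max_right _ _
  refine superadditive (Γ.measurePreserving_τ (disp Γ.q b)) (X := fun k ω => best (Γ.g ω) Γ.q z (k • b))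
    (fun k => ?_) (C := C' * sz b) (by positivity) (fun k ω => ?_) (fun k n ω => ?_)
  · have : Countable (PC (k • b)) := inferInstance
    exact Measurable.iSup fun l => measurable_total Γ z l.1
  · have h1 := abs_best_le (q := Γ.q) (hC2 ω) z (k • b)
    rw [sz_smul] at h1
    push_cast at h1
    refine h1.trans (le_of_eq ?_)
    ring
  · have h1 := best_add (q := Γ.q) (hC2 ω) z (k • b) (n • b)
    rw [← add_smul, disp_smul] at h1
    refine le_trans (le_of_eq ?_) h1
    congr 1
    unfold best
    refine iSup_congr fun l => ?_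
    rw [total_shift (g := Γ.g ω) (y := k • disp Γ.q b) (fun z i => g_iterate Γ _ k ω z i), add_comm z]

/-- The set of base vectors. -/
noncomputable def net (I : Type*) [Fintype I] [DecidableEq I] (D : ℕ) : Finset (I → ℕ) :=
  (Fintype.piFinset fun _ : I => Icc 1 (D + 1)).filter fun b => D ≤ sz b ∧ sz b ≤ D + Fintype.card I

/-- Rounding the frequencies. -/
theorem exists_net {D n : ℕ} (hD : 1 ≤ D) (hn : 1 ≤ n) (c : I → ℕ) (hc : sz c = n) :
    ∃ b ∈ net I D, ∀ i, c i ≤ (n / D + 1) * b i := by
  have hci : ∀ i, c i ≤ n := fun i => by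
    rw [← hc]; exact single_le_sum (f := c) (fun _ _ => Nat.zero_le _) (mem_univ i)
  refine ⟨fun i => D * c i / n + 1, ?_, fun i => ?_⟩
  · unfold net
    rw [mem_filter, Fintype.mem_piFinset]
    refine ⟨fun i => ?_, ?_, ?_⟩
    · rw [mem_Icc]
      refine ⟨Nat.le_add_left _ _, ?_⟩
      have h1 : D * c i / n ≤ D := by
        rw [Nat.div_le_iff_le_mul_add_pred hn]
        have := Nat.mul_le_mul_left D (hci i)
        nlinarith
      exact Nat.succ_le_succ h1
    · -- `D ≤ ∑ (⌊D c_i / n⌋ + 1)`
      have h1 : ∀ i, D * c i ≤ n * (D * c i / n + 1) := fun i => by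
        have := Nat.lt_mul_div_succ (D * c i) (show 0 < n by omega)
        exact this.le
      have h2 : ∑ i, D * c i ≤ ∑ i, n * (D * c i / n + 1) := sum_le_sum fun i _ => h1 i
      rw [← mul_sum, ← mul_sum] at h2
      have h3 : ∑ i, c i = n := hc
      rw [h3, mul_comm D n] at h2
      exact Nat.le_of_mul_le_mul_left h2 (by omega)
    · show ∑ i, (D * c i / n + 1) ≤ _
      rw [sum_add_distrib]
      have h1 : ∑ i, D * c i / n ≤ D := by
        have h2 : n * ∑ i, D * c i / n ≤ n * D := by
          rw [mul_sum]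
          calc ∑ i, n * (D * c i / n) ≤ ∑ i, D * c i := sum_le_sum fun i _ => Nat.mul_div_le _ _
            _ = n * D := by rw [← mul_sum, show ∑ i, c i = n from hc, mul_comm]
        exact Nat.le_of_mul_le_mul_left h2 (by omega)
      simp only [sum_const, card_univ, smul_eq_mul, mul_one]
      omega
  · -- `c_i ≤ (n / D + 1) (⌊D c_i / n⌋ + 1)`
    have h1 := Nat.lt_mul_div_succ (D * c i) (show 0 < n by omega)
    have h2 := Nat.lt_mul_div_succ n (show 0 < D by omega)
    dsimp only
    have h3 : D * c i < D * ((n / D + 1) * (D * c i / n + 1)) := by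
      calc D * c i < n * (D * c i / n + 1) := h1
        _ ≤ (D * (n / D + 1)) * (D * c i / n + 1) := Nat.mul_le_mul_right _ h2.le
        _ = _ := by ring
    exact (Nat.lt_of_mul_lt_mul_left h3).le

/-- The deterministic part: if all the limits along base vectors exist, the values converge. -/
theorem converge [Nonempty I] {g : (Fin d → ℤ) → I → ℝ} {q : I → (Fin d → ℤ)} {C : ℝ}
    (hg : ∀ z i, |g z i| ≤ C) (z : Fin d → ℤ)
    (hlim : ∀ b : I → ℕ, ∃ a, Tendsto (fun k : ℕ => best g q z (k • b) / k) atTop (𝓝 a)) :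
    ∃ v, Tendsto (fun n : ℕ => ⨆ l : {l : List I // l.length = n}, total g q z l.1 / n) atTop (𝓝 v) := by
  have hC : 0 ≤ C := by
    obtain ⟨i0⟩ : Nonempty I := inferInstance
    exact (abs_nonneg _).trans (hg z i0)
  choose a ha using hlim
  set N := Fintype.card I with hN
  set S : ℕ → ℝ := fun n => ⨆ l : {l : List I // l.length = n}, total g q z l.1 / n with hS
  have hne : ∀ n, Nonempty {l : List I // l.length = n} := fun n => by
    obtain ⟨i0⟩ : Nonempty I := inferInstance
    exact ⟨⟨List.replicate n i0, List.length_replicate⟩⟩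
  have hbdd : ∀ n : ℕ, 1 ≤ n → BddAbove (Set.range fun l : {l : List I // l.length = n} =>
      total g q z l.1 / n) := by
    intro n hn
    have hn0 : (0 : ℝ) < n := by exact_mod_cast hn
    refine ⟨C, ?_⟩
    rintro _ ⟨l, rfl⟩
    dsimp only
    rw [div_le_iff₀ hn0]
    have := (abs_le.1 (abs_total_le (q := q) hg z l.1)).2
    rwa [l.2] at this
  have hSge : ∀ n : ℕ, 1 ≤ n → ∀ l : List I, l.length = n → total g q z l ≤ S n * n := by
    intro n hn l hl
    have hn0 : (0 : ℝ) < n := by exact_mod_cast hn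
    have := le_ciSup (hbdd n hn) ⟨l, hl⟩
    rwa [div_le_iff₀ hn0] at this
  have habound : ∀ b, |a b| ≤ C * sz b := by
    intro b
    refine le_of_tendsto ((ha b).abs) ?_
    filter_upwards [eventually_ge_atTop 1] with k hk
    have hk0 : (0 : ℝ) < k := by exact_mod_cast hk
    have h1 := abs_best_le (q := q) hg z (k • b)
    rw [abs_div, abs_of_pos hk0, div_le_iff₀ hk0]
    rw [sz_smul] at h1
    push_cast at h1
    linarith
  -- key approximation
  have key : ∀ D : ℕ, 1 ≤ D → ∃ x : ℝ, ∀ ε : ℝ, 0 < ε → ∀ᶠ n : ℕ in atTop,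
      |S n - x| ≤ C * N / D + ε := by
    intro D hD
    have hD0 : (0 : ℝ) < D := by exact_mod_cast hD
    have hnetne : (net I D).Nonempty := by
      obtain ⟨i0⟩ : Nonempty I := inferInstance
      obtain ⟨b, hb, _⟩ := exists_net (I := I) hD le_rfl (fun i => if i = i0 then 1 else 0)
        (by unfold sz; simp)
      exact ⟨b, hb⟩
    obtain ⟨b0, hb0, hmax⟩ := exists_max_image (net I D) a hnetne
    have hmem : ∀ b ∈ net I D, (D : ℝ) ≤ sz b ∧ (sz b : ℝ) ≤ D + N := by
      intro b hb
      unfold net at hb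
      rw [mem_filter] at hb
      exact ⟨by exact_mod_cast hb.2.1, by exact_mod_cast hb.2.2⟩
    refine ⟨a b0 / D, fun ε hε => ?_⟩
    -- upper bound
    have hup : ∀ᶠ n : ℕ in atTop, S n ≤ a b0 / D + (C * N / D + ε) := by
      -- `best ((n / D + 1) • b) / n → a b / D`
      have h1 : ∀ b, Tendsto (fun n : ℕ => best g q z ((n / D + 1) • b) / n) atTop (𝓝 (a b / D)) := by
        intro b
        have e1 : Tendsto (fun n : ℕ => n / D + 1) atTop atTop :=
          tendsto_atTop_mono (fun n => Nat.le_succ _) (Nat.tendsto_div_const_atTop (by omega))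
        have e2 := (ha b).comp e1
        have e3 : Tendsto (fun n : ℕ => ((n / D + 1 : ℕ) : ℝ) / n) atTop (𝓝 (1 / D)) := by
          have u1 : Tendsto (fun n : ℕ => 1 / (D : ℝ) + 1 / n) atTop (𝓝 (1 / D + 0)) :=
            tendsto_const_nhds.add tendsto_one_div_atTop_nhds_zero_nat
          rw [add_zero] at u1
          refine tendsto_of_tendsto_of_tendsto_of_le_of_le' tendsto_const_nhds u1 ?_ ?_
          · filter_upwards [eventually_ge_atTop 1] with n hn
            have hn0 : (0 : ℝ) < n := by exact_mod_cast hn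
            have h2 := Nat.lt_mul_div_succ n (show 0 < D by omega)
            have h3 : (n : ℝ) < D * ((n / D + 1 : ℕ) : ℝ) := by exact_mod_cast h2
            rw [div_le_div_iff₀ hD0 hn0]
            linarith
          · filter_upwards [eventually_ge_atTop 1] with n hn
            have hn0 : (0 : ℝ) < n := by exact_mod_cast hn
            have h2 : ((n / D : ℕ) : ℝ) ≤ n / D := Nat.cast_div_le
            have h3 : ((n / D + 1 : ℕ) : ℝ) / n = ((n / D : ℕ) : ℝ) / n + 1 / n := by
              push_cast; rw [add_div]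
            have h4 : ((n / D : ℕ) : ℝ) / n ≤ 1 / D := by
              rw [div_le_iff₀ hn0]
              calc ((n / D : ℕ) : ℝ) ≤ n / D := h2
                _ = 1 / D * n := by ring
            rw [h3]; linarith
        have e4 := e2.mul e3
        rw [mul_one_div] at e4
        refine e4.congr' ?_
        filter_upwards [eventually_ge_atTop 1] with n hn
        have hn0 : (0 : ℝ) < n := by exact_mod_cast hn
        have hk0 : (0 : ℝ) < ((n / D + 1 : ℕ) : ℝ) := by positivity
        show best g q z ((n / D + 1) • b) / ((n / D + 1 : ℕ) : ℝ) * (((n / D + 1 : ℕ) : ℝ) / n) = _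
        field_simp
      have h2 : ∀ᶠ n : ℕ in atTop, ∀ b ∈ net I D, best g q z ((n / D + 1) • b) / n < a b / D + ε / 2 := by
        rw [Filter.eventually_all_finset]
        intro b _
        exact (h1 b).eventually (eventually_lt_nhds (by linarith))
      obtain ⟨n1, hn1⟩ := exists_nat_gt (C * (D + N) / (ε / 2))
      filter_upwards [h2, eventually_ge_atTop (max n1 1)] with n hn hnn
      have hn1' : (n1 : ℝ) ≤ n := by exact_mod_cast (le_max_left _ _).trans hnn
      have hn2 : 1 ≤ n := (le_max_right _ _).trans hnn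
      have hn0 : (0 : ℝ) < n := by exact_mod_cast hn2
      have := hne n
      refine ciSup_le fun l => ?_
      obtain ⟨b, hb, hbl⟩ := exists_net hD hn2 (fun i => l.1.count i) (by
        unfold sz; rw [← length_eq, l.2])
      have e1 := total_le_best (q := q) hg z l.1 ((n / D + 1) • b) hbl
      rw [l.2, sz_smul] at e1
      have e2 := hn b hb
      have e3 := hmax b hb
      have e4 := hmem b hb
      have e5 : ((n / D + 1 : ℕ) : ℝ) * sz b - n ≤ n * N / D + (D + N) := by
        have u1 : ((n / D : ℕ) : ℝ) ≤ n / D := Nat.cast_div_le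
        have u2 : ((n / D + 1 : ℕ) : ℝ) ≤ n / D + 1 := by push_cast; linarith
        have u3 : ((n / D + 1 : ℕ) : ℝ) * sz b ≤ (n / D + 1) * (D + N) :=
          mul_le_mul u2 e4.2 (Nat.cast_nonneg _) (by positivity)
        have u4 : ((n : ℝ) / D + 1) * (D + N) - n = n * N / D + (D + N) := by
          field_simp
          ring
        linarith
      rw [div_lt_iff₀ hn0] at e2
      rw [div_le_iff₀ hn0]
      rw [div_lt_iff₀ (by positivity)] at hn1
      have e6 : C * (((n / D + 1 : ℕ) : ℝ) * sz b - n) ≤ C * (n * N / D + (D + N)) :=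
        mul_le_mul_of_nonneg_left e5 hC
      have e7 : a b / D * n ≤ a b0 / D * n := by gcongr
      have e8 : C * (D + N) ≤ ε / 2 * n := by nlinarith
      have e9 : (a b0 / D + (C * N / D + ε)) * n = a b0 / D * n + C * (n * N / D) + ε * n := by ring
      push_cast at e1 e6
      rw [e9]
      linarith
    -- lower bound
    have hlow : ∀ᶠ n : ℕ in atTop, a b0 / D - (C * N / D + ε) ≤ S n := by
      obtain ⟨hz1, hz2⟩ := hmem b0 hb0
      set s := sz b0 with hs
      have hs0 : (0 : ℝ) < s := hD0.trans_le hz1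
      have hs1 : 0 < s := by exact_mod_cast hs0
      have e1 : Tendsto (fun n : ℕ => n / s) atTop atTop := Nat.tendsto_div_const_atTop hs1.ne'
      have e2 := (ha b0).comp e1
      have e3 : Tendsto (fun n : ℕ => ((n / s : ℕ) : ℝ) / n) atTop (𝓝 (1 / s)) := by
        have u1 : Tendsto (fun n : ℕ => 1 / (s : ℝ) - 1 / n) atTop (𝓝 (1 / s - 0)) :=
          tendsto_const_nhds.sub tendsto_one_div_atTop_nhds_zero_nat
        rw [sub_zero] at u1
        refine tendsto_of_tendsto_of_tendsto_of_le_of_le' u1 tendsto_const_nhds ?_ ?_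
        · filter_upwards [eventually_ge_atTop 1] with n hn
          have hn0 : (0 : ℝ) < n := by exact_mod_cast hn
          have h2 := Nat.lt_mul_div_succ n hs1
          have h3 : (n : ℝ) < s * ((n / s : ℕ) + 1 : ℝ) := by exact_mod_cast h2
          rw [le_div_iff₀ hn0]
          have h4 : (1 / (s : ℝ) - 1 / n) * n = n / s - 1 := by field_simp
          rw [h4, sub_le_iff_le_add, div_le_iff₀ hs0]
          linarith
        · filter_upwards [eventually_ge_atTop 1] with n hn
          have hn0 : (0 : ℝ) < n := by exact_mod_cast hn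
          have h2 : ((n / s : ℕ) : ℝ) ≤ n / s := Nat.cast_div_le
          rw [div_le_iff₀ hn0]
          calc ((n / s : ℕ) : ℝ) ≤ n / s := h2
            _ = 1 / s * n := by ring
      have e4 := e2.mul e3
      have e5 : Tendsto (fun n : ℕ => best g q z ((n / s) • b0) / n) atTop (𝓝 (a b0 * (1 / s))) := by
        refine e4.congr' ?_
        filter_upwards [eventually_ge_atTop s] with n hn
        have hk : 0 < n / s := Nat.div_pos hn hs1
        have hk0 : (0 : ℝ) < ((n / s : ℕ) : ℝ) := by exact_mod_cast hk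
        show best g q z ((n / s) • b0) / ((n / s : ℕ) : ℝ) * (((n / s : ℕ) : ℝ) / n) = _
        field_simp
      have e6 := e5.eventually (eventually_gt_nhds (show a b0 * (1 / s) - ε / 2 < a b0 * (1 / s) by linarith))
      obtain ⟨n1, hn1⟩ := exists_nat_gt (C * s / (ε / 2))
      filter_upwards [e6, eventually_ge_atTop (max n1 1)] with n hn hnn
      have hn1' : (n1 : ℝ) ≤ n := by exact_mod_cast (le_max_left _ _).trans hnn
      have hn2 : 1 ≤ n := (le_max_right _ _).trans hnn
      have hn0 : (0 : ℝ) < n := by exact_mod_cast hn2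
      have u1 : sz ((n / s) • b0) ≤ n := by rw [sz_smul]; exact Nat.div_mul_le_self n s
      have u2 := best_le_total (q := q) hg z ((n / s) • b0) n u1 (S n * n) (hSge n hn2)
      rw [sz_smul] at u2
      have u3 : (n : ℝ) - ((n / s * s : ℕ) : ℝ) ≤ s := by
        have h2 := Nat.lt_mul_div_succ n hs1
        have h3 : (n : ℝ) < s * ((n / s : ℕ) + 1 : ℝ) := by exact_mod_cast h2
        push_cast
        linarith
      have u4 : C * ((n : ℝ) - ((n / s * s : ℕ) : ℝ)) ≤ C * s := mul_le_mul_of_nonneg_left u3 hC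
      rw [lt_div_iff₀ hn0] at hn
      rw [div_lt_iff₀ (by positivity)] at hn1
      have u5 : C * s ≤ ε / 2 * n := by nlinarith
      -- `a b0 / s ≥ a b0 / D - C N / D`
      have u6 : a b0 / D - C * N / D ≤ a b0 * (1 / s) := by
        have w1 := habound b0
        have w2 : a b0 / D - a b0 * (1 / s) = a b0 * ((s : ℝ) - D) / (D * s) := by field_simp
        have w3 : a b0 * ((s : ℝ) - D) / (D * s) ≤ C * N / D := by
          rw [div_le_div_iff₀ (by positivity) hD0]
          have w4 : a b0 * ((s : ℝ) - D) ≤ C * s * N := by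
            calc a b0 * ((s : ℝ) - D) ≤ (C * s) * ((s : ℝ) - D) :=
                  mul_le_mul_of_nonneg_right ((le_abs_self _).trans w1) (by linarith)
              _ ≤ (C * s) * N := mul_le_mul_of_nonneg_left (by linarith) (by positivity)
          calc a b0 * ((s : ℝ) - D) * D ≤ C * s * N * D := mul_le_mul_of_nonneg_right w4 hD0.le
            _ = C * N * (D * s) := by ring
        linarith
      have u7 : (a b0 / D - (C * N / D + ε)) * n ≤ S n * n := by
        have w1 : (a b0 / D - C * N / D) * n ≤ a b0 * (1 / s) * n := mul_le_mul_of_nonneg_right u6 hn0.le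
        nlinarith
      exact le_of_mul_le_mul_right u7 hn0
    filter_upwards [hup, hlow] with n h1 h2
    rw [abs_le]
    constructor <;> linarith
  -- Cauchy
  have hcauchy : CauchySeq S := by
    rw [Metric.cauchySeq_iff']
    intro ε hε
    obtain ⟨D0, hD0⟩ := exists_nat_gt (C * N / (ε / 8))
    obtain ⟨x, hx⟩ := key (D0 + 1) (by omega)
    obtain ⟨n0, hn0⟩ := eventually_atTop.1 (hx (ε / 8) (by positivity))
    have h1 : C * N / ((D0 + 1 : ℕ) : ℝ) ≤ ε / 8 := by
      rw [div_le_iff₀ (by positivity)]
      rw [div_lt_iff₀ (by positivity)] at hD0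
      push_cast
      nlinarith
    refine ⟨n0, fun n hn => ?_⟩
    have h2 := hn0 n hn
    have h3 := hn0 n0 le_rfl
    rw [Real.dist_eq, abs_lt]
    rw [abs_le] at h2 h3
    constructor <;> linarith
  exact cauchySeq_tendsto_of_complete hcauchy

theorem maxValue_converges [IsProbabilityMeasure P] [Nonempty I] (Γ : Game d I P) (z : Fin d → ℤ) :
    ∀ᵐ ω ∂P, ∃ v, Tendsto (fun n => maxValue Γ ω z n) atTop (𝓝 v) := by
  obtain ⟨C, hC⟩ := Γ.bounded
  have h := ae_all_iff.2 fun b : I → ℕ => exists_limit Γ z b
  filter_upwards [h] with ω hω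
  exact converge (hC ω) z hω

/-- The game with opposite payoffs. -/
def Game.neg (Γ : Game d I P) : Game d I P where
  q := Γ.q
  τ := Γ.τ
  g ω z i := -Γ.g ω z i
  measurePreserving_τ := Γ.measurePreserving_τ
  τ_add := Γ.τ_add
  measurable_g z i := (Γ.measurable_g z i).neg
  bounded := by
    obtain ⟨C, hC⟩ := Γ.bounded
    exact ⟨C, fun ω z i => by rw [abs_neg]; exact hC ω z i⟩
  stationary z z' i ω := by rw [Γ.stationary]

omit [Fintype I] [DecidableEq I] in
theorem total_neg (g : (Fin d → ℤ) → I → ℝ) (q : I → (Fin d → ℤ)) (z : Fin d → ℤ) (l : List I) :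
    total (fun z i => -g z i) q z l = -total g q z l := by
  induction l generalizing z with
  | nil => simp [total]
  | cons i l ih => rw [total, total, ih]; ring

omit [Fintype I] [DecidableEq I] in
theorem minValue_eq (Γ : Game d I P) (ω : Ω) (z : Fin d → ℤ) (n : ℕ) :
    minValue Γ ω z n = -maxValue Γ.neg ω z n := by
  unfold minValue maxValue
  have h : ∀ l : {l : List I // l.length = n}, total (Γ.neg.g ω) Γ.neg.q z l.1 / n =
      -(total (Γ.g ω) Γ.q z l.1 / n) := by
    intro l
    show total (fun z i => -Γ.g ω z i) Γ.q z l.1 / n = _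
    rw [total_neg, neg_div]
  simp only [h]
  unfold iInf iSup
  rw [Real.sInf_def]
  congr 2
  ext x
  simp only [Set.mem_neg, Set.mem_range]
  constructor
  · rintro ⟨l, hl⟩; exact ⟨l, by rw [hl, neg_neg]⟩
  · rintro ⟨l, hl⟩; exact ⟨l, by rw [← hl, neg_neg]⟩

theorem minValue_converges [IsProbabilityMeasure P] [Nonempty I] (Γ : Game d I P) (z : Fin d → ℤ) :
    ∀ᵐ ω ∂P, ∃ v, Tendsto (fun n => minValue Γ ω z n) atTop (𝓝 v) := by
  filter_upwards [maxValue_converges Γ.neg z] with ω hω
  obtain ⟨v, hv⟩ := hω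
  refine ⟨-v, ?_⟩
  simp only [minValue_eq]
  exact hv.neg

end Q287.KI
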