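import Pool.Agent.Q287.KI.Defs

set_option autoImplicit false

/-!
# Paths with prescribed action counts
-/

open Finset

namespace Q287.KI

variable {d : ℕ} {I : Type*} {g : (Fin d → ℤ) → I → ℝ} {q : I → (Fin d → ℤ)}

theorem total_append (z : Fin d → ℤ) (l l' : List I) :
    total g q z (l ++ l') = total g q z l + total g q (z + (l.map q).sum) l' := by
  induction l generalizing z with
  | nil => simp [total]
  | cons i l ih =>
    rw [List.cons_append, total, total, ih, List.map_cons, List.sum_cons, add_assoc, add_assoc]

theorem abs_total_le {C : ℝ} (hg : ∀ z i, |g z i| ≤ C) (z : Fin d → ℤ) (l : List I) :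
    |total g q z l| ≤ C * l.length := by
  induction l generalizing z with
  | nil => simp [total]
  | cons i l ih =>
    rw [total, List.length_cons]
    push_cast
    have h1 := hg z i
    have h2 := ih (z + q i)
    have h3 := abs_add_le (g z i) (total g q (z + q i) l)
    linarith

section
variable [Fintype I] [DecidableEq I]

/-- The displacement of a path with action counts `c`. -/
def disp (q : I → (Fin d → ℤ)) (c : I → ℕ) : Fin d → ℤ := ∑ i, c i • q i

theorem sum_eq_disp (l : List I) : (l.map q).sum = disp q (fun i => l.count i) := by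
  unfold disp
  induction l with
  | nil => simp
  | cons i l ih =>
    rw [List.map_cons, List.sum_cons, ih]
    have h : ∀ j, (List.count j (i :: l)) • q j = (if j = i then q j else 0) + List.count j l • q j := by
      intro j
      rw [List.count_cons]
      by_cases hj : j = i
      · subst hj; simp [add_smul]; abel
      · rw [if_neg hj]
        have : ¬ (i == j) = true := by simpa using fun h => hj h.symm
        rw [if_neg this]; simp
    rw [sum_congr rfl fun j _ => h j, sum_add_distrib, sum_ite_eq' univ i, if_pos (mem_univ _)]

theorem length_eq (l : List I) : l.length = ∑ i, l.count i := by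
  induction l with
  | nil => simp
  | cons i l ih =>
    rw [List.length_cons, ih]
    have h : ∀ j, List.count j (i :: l) = (if j = i then 1 else 0) + List.count j l := by
      intro j
      rw [List.count_cons]
      by_cases hj : j = i
      · subst hj; simp; omega
      · rw [if_neg hj]
        have : ¬ (i == j) = true := by simpa using fun h => hj h.symm
        rw [if_neg this]; simp
    rw [sum_congr rfl fun j _ => h j, sum_add_distrib, sum_ite_eq' univ i, if_pos (mem_univ _)]
    omega

/-- A list with prescribed counts. -/
theorem exists_list (c : I → ℕ) : ∃ l : List I, ∀ i, l.count i = c i := by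
  refine ⟨(∑ i, Multiset.replicate (c i) i : Multiset I).toList, fun i => ?_⟩
  rw [← Multiset.coe_count, Multiset.coe_toList, Multiset.count_sum']
  simp [Multiset.count_replicate]

/-- Paths with action counts `c`. -/
abbrev PC (c : I → ℕ) : Type _ := {l : List I // ∀ i, l.count i = c i}

instance (c : I → ℕ) : Nonempty (PC c) := by
  obtain ⟨l, hl⟩ := exists_list c
  exact ⟨⟨l, hl⟩⟩

/-- The best total payoff with action counts `c`. -/
noncomputable def best (g : (Fin d → ℤ) → I → ℝ) (q : I → (Fin d → ℤ)) (z : Fin d → ℤ)
    (c : I → ℕ) : ℝ := ⨆ l : PC c, total g q z l.1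

/-- the size of a count vector -/
def sz (c : I → ℕ) : ℕ := ∑ i, c i

theorem length_PC {c : I → ℕ} (l : PC c) : l.1.length = sz c := by
  rw [length_eq]; exact sum_congr rfl fun i _ => l.2 i

variable {C : ℝ} (hg : ∀ z i, |g z i| ≤ C)
include hg

theorem bdd_best (z : Fin d → ℤ) (c : I → ℕ) :
    BddAbove (Set.range fun l : PC c => total g q z l.1) := by
  refine ⟨C * sz c, ?_⟩
  rintro _ ⟨l, rfl⟩
  have := abs_total_le (q := q) hg z l.1
  rw [length_PC] at this
  exact (abs_le.1 this).2

theorem abs_best_le (z : Fin d → ℤ) (c : I → ℕ) : |best g q z c| ≤ C * sz c := by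
  obtain ⟨l0⟩ : Nonempty (PC c) := inferInstance
  rw [abs_le]
  constructor
  · have h1 := le_ciSup (bdd_best hg (q := q) z c) l0
    have h2 := abs_total_le (q := q) hg z l0.1
    rw [length_PC] at h2
    exact (abs_le.1 h2).1.trans h1
  · refine ciSup_le fun l => ?_
    have h2 := abs_total_le (q := q) hg z l.1
    rw [length_PC] at h2
    exact (abs_le.1 h2).2

theorem best_add (z : Fin d → ℤ) (c c' : I → ℕ) :
    best g q z c + best g q (z + disp q c) c' ≤ best g q z (c + c') := by
  rw [← le_sub_iff_add_le]
  refine ciSup_le fun l => ?_
  rw [le_sub_iff_add_le, ← le_sub_iff_add_le']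
  refine ciSup_le fun l' => ?_
  rw [le_sub_iff_add_le']
  have h1 : ∀ i, (l.1 ++ l'.1).count i = (c + c') i := by
    intro i; rw [List.count_append, l.2, l'.2]; rfl
  have h2 := le_ciSup (bdd_best hg (q := q) z (c + c')) ⟨l.1 ++ l'.1, h1⟩
  refine le_trans (le_of_eq ?_) h2
  show _ = total g q z (l.1 ++ l'.1)
  rw [total_append, sum_eq_disp]
  have h3 : disp q (fun i => l.1.count i) = disp q c := by
    unfold disp; exact sum_congr rfl fun i _ => by show l.1.count i • q i = _; rw [l.2]
  rw [h3]

/-- Any path extends to a path with larger counts. -/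
theorem total_le_best (z : Fin d → ℤ) (l : List I) (c : I → ℕ) (h : ∀ i, l.count i ≤ c i) :
    total g q z l ≤ best g q z c + C * ((sz c : ℝ) - l.length) := by
  obtain ⟨l', hl'⟩ := exists_list (fun i => c i - l.count i)
  have h1 : ∀ i, (l ++ l').count i = c i := by
    intro i; rw [List.count_append, hl']; have := h i; omega
  have h2 := le_ciSup (bdd_best hg (q := q) z c) ⟨l ++ l', h1⟩
  have h3 : total g q z (l ++ l') ≤ best g q z c := h2
  rw [total_append] at h3
  have h4 := abs_total_le (q := q) hg (z + (l.map q).sum) l'
  have h5 : (l'.length : ℝ) = (sz c : ℝ) - l.length := by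
    have : (l ++ l').length = sz c := by
      rw [length_eq]; exact sum_congr rfl fun i _ => h1 i
    rw [List.length_append] at this
    rw [← this]; push_cast; ring
  rw [h5] at h4
  have := (abs_le.1 h4).1
  linarith

/-- Any path with given counts is a prefix of a path of given length. -/
theorem best_le_total [Nonempty I] (z : Fin d → ℤ) (c : I → ℕ) (n : ℕ) (h : sz c ≤ n) (b : ℝ)
    (hb : ∀ l : List I, l.length = n → total g q z l ≤ b) :
    best g q z c ≤ b + C * ((n : ℝ) - sz c) := by
  refine ciSup_le fun l => ?_
  obtain ⟨i0⟩ : Nonempty I := inferInstance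
  have h1 := hb (l.1 ++ List.replicate (n - sz c) i0) (by
    rw [List.length_append, length_PC, List.length_replicate]; omega)
  rw [total_append] at h1
  have h4 := abs_total_le (q := q) hg (z + (l.1.map q).sum) (List.replicate (n - sz c) i0)
  rw [List.length_replicate, Nat.cast_sub h] at h4
  have := (abs_le.1 h4).1
  linarith

end

end Q287.KI
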